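import Pool.Agent.Helper55.FR.GoalsB

/-!
# NUM: the numerical condition
-/

namespace Pool.Agent.Helper17.FR

open Finset Pool.Agent.Helper55.FR

private lemma exp_four : (48 : ℝ) ≤ Real.exp 4 := by
  have h1 := Real.exp_one_gt_d9
  have h2 : Real.exp 4 = Real.exp 1 ^ 4 := by rw [← Real.exp_nat_mul]; norm_num
  rw [h2]
  calc (48 : ℝ) ≤ (2.7182818283 : ℝ) ^ 4 := by norm_num
    _ ≤ Real.exp 1 ^ 4 := by gcongr

private lemma exp_21 : (480000000 : ℝ) ≤ Real.exp 21 := by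
  have h1 := Real.exp_one_gt_d9
  have h2 : Real.exp 21 = Real.exp 1 ^ 21 := by rw [← Real.exp_nat_mul]; norm_num
  rw [h2]
  calc (480000000 : ℝ) ≤ (2.7182818283 : ℝ) ^ 21 := by norm_num
    _ ≤ Real.exp 1 ^ 21 := by gcongr

private lemma le_exp (t : ℝ) : t ≤ Real.exp t := by
  have := Real.add_one_le_exp t
  linarith

theorem num : NumStmt := by
  intro h r g hh hh1 hr hg
  have hr1 : (1 : ℝ) ≤ r := by exact_mod_cast hr
  have hr0 : (0 : ℝ) < r := by linarith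
  obtain ⟨x, hxdef⟩ : ∃ x : ℝ, x = r / h := ⟨_, rfl⟩
  have hhx : h * x = r := by rw [hxdef]; field_simp
  have hx1 : 1 ≤ x := by
    rw [hxdef, le_div_iff₀ hh]; linarith
  have hx0 : 0 < x := by linarith
  have hxr : (r : ℝ) ≤ x := by
    rw [← hhx]; nlinarith
  have hgx : 10 ^ 10 * x ^ 3 ≤ g := by
    have h3 : 0 < h ^ 3 := by positivity
    have : h ^ 3 * (10 ^ 10 * x ^ 3) ≤ h ^ 3 * g := by
      calc h ^ 3 * (10 ^ 10 * x ^ 3) = 10 ^ 10 * (h * x) ^ 3 := by ring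
        _ = 10 ^ 10 * (r : ℝ) ^ 3 := by rw [hhx]
        _ ≤ h ^ 3 * g := hg
    exact le_of_mul_le_mul_left this h3
  obtain ⟨L, hLdef⟩ : ∃ L : ℕ, L = ⌈(10 : ℝ) ^ 6 * x ^ 2⌉₊ := ⟨_, rfl⟩
  have hL1 : (10 : ℝ) ^ 6 * x ^ 2 ≤ L := by rw [hLdef]; exact Nat.le_ceil _
  have hx2 : 1 ≤ x ^ 2 := by nlinarith
  have hL2 : (L : ℝ) ≤ 2 * 10 ^ 6 * x ^ 2 := by
    have := Nat.ceil_lt_add_one (a := (10 : ℝ) ^ 6 * x ^ 2) (by positivity)
    rw [← hLdef] at this
    linarith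
  have hLpos : (0 : ℝ) < L := by
    have : (0 : ℝ) < (10 : ℝ) ^ 6 * x ^ 2 := by positivity
    linarith
  have hx3 : x ^ 2 ≤ x ^ 3 := by nlinarith
  have hgpos : (0 : ℝ) < g := by
    have : (0 : ℝ) < (10 : ℝ) ^ 10 * x ^ 3 := by positivity
    linarith
  refine ⟨L, ?_, ?_, ?_, ?_⟩
  · exact_mod_cast hLpos
  · have : (L : ℝ) ≤ g := by linarith
    exact_mod_cast this
  · have : h * (10 ^ 10 * x ^ 3) ≤ h * g := by gcongr
    have h2 : h * (10 ^ 10 * x ^ 3) = 10 ^ 10 * r * x ^ 2 := by rw [← hhx]; ring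
    nlinarith
  · intro b k u z hb hk hu hz
    -- b is large
    have hb' : 10 ^ 10 * r * x ^ 2 ≤ 4 * b := by
      have : h * (10 ^ 10 * x ^ 3) ≤ h * g := by gcongr
      have h2 : h * (10 ^ 10 * x ^ 3) = 10 ^ 10 * r * x ^ 2 := by rw [← hhx]; ring
      linarith
    have hb1 : (1 : ℝ) ≤ b := by nlinarith
    have hbr : 10 ^ 9 * x ^ 2 ≤ b / r := by
      rw [le_div_iff₀ hr0]; nlinarith
    have hbr0 : 0 < (b : ℝ) / r := by positivity
    -- the logarithm
    have hA : 240 * (L : ℝ) ≤ Real.exp (23 * x) := by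
      have h1 : x ≤ Real.exp x := le_exp x
      calc 240 * (L : ℝ) ≤ 480000000 * x ^ 2 := by linarith
        _ ≤ Real.exp 21 * (Real.exp x) ^ 2 := by
            have := exp_21
            gcongr
        _ = Real.exp (21 + 2 * x) := by
            rw [Real.exp_add, ← Real.exp_nat_mul]; norm_num
        _ ≤ Real.exp (23 * x) := by
            apply Real.exp_le_exp.mpr; linarith
    have hAk : (240 * (L : ℝ)) ^ k ≤ Real.exp (k * (23 * x)) := by
      rw [Real.exp_nat_mul]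
      gcongr
    have hB : (25 : ℝ) ^ (L * u) ≤ Real.exp ((L * u : ℕ) * 4) := by
      rw [Real.exp_nat_mul]
      have := exp_four
      gcongr
      linarith
    have hC : (1 + 1 / (12 * (L : ℝ))) ^ z ≤ Real.exp (z * (1 / (12 * (L : ℝ)))) := by
      rw [Real.exp_nat_mul]
      gcongr
      have := Real.add_one_le_exp (1 / (12 * (L : ℝ)))
      linarith
    -- the square root
    obtain ⟨θ, hθdef⟩ : ∃ θ : ℝ, θ = 1 - 1 / (4 * (r : ℝ)) := ⟨_, rfl⟩
    have hθ0 : 0 ≤ θ := by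
      rw [hθdef]
      have : 1 / (4 * (r : ℝ)) ≤ 1 := by
        rw [div_le_one (by positivity)]; linarith
      linarith
    have hθ1 : θ < 1 := by
      rw [hθdef]
      have : 0 < 1 / (4 * (r : ℝ)) := by positivity
      linarith
    rw [← hθdef]
    obtain ⟨s, hsdef⟩ : ∃ s : ℝ, s = Real.sqrt θ := ⟨_, rfl⟩
    have hs0 : 0 ≤ s := by rw [hsdef]; positivity
    have hss : s * s = θ := by rw [hsdef]; exact Real.mul_self_sqrt hθ0
    have hs1 : s ≤ 1 := by nlinarith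
    rw [← hsdef]
    have hs2 : 1 / (8 * (r : ℝ)) ≤ 1 - s := by
      have h1 : 1 - θ = 1 / (4 * (r : ℝ)) := by rw [hθdef]; ring
      have h2 : 1 - θ ≤ 2 * (1 - s) := by nlinarith
      have h3 : 1 / (4 * (r : ℝ)) = 2 * (1 / (8 * (r : ℝ))) := by field_simp; norm_num
      linarith
    have hs3 : s ≤ Real.exp (-(1 / (8 * (r : ℝ)))) := by
      have h1 := Real.add_one_le_exp (-(1 / (4 * (r : ℝ))))
      have h2 : θ ≤ Real.exp (-(1 / (4 * (r : ℝ)))) := by rw [hθdef]; linarith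
      have h3 : Real.exp (-(1 / (4 * (r : ℝ)))) = Real.exp (-(1 / (8 * (r : ℝ)))) ^ 2 := by
        rw [← Real.exp_nat_mul]; congr 1; field_simp; norm_num
      have h4 : s ^ 2 ≤ Real.exp (-(1 / (8 * (r : ℝ)))) ^ 2 := by
        rw [← h3, sq, hss]; exact h2
      exact le_of_sq_le_sq h4 (Real.exp_pos _).le
    have hsb : s ^ b ≤ Real.exp (b * (-(1 / (8 * (r : ℝ))))) := by
      rw [Real.exp_nat_mul]
      gcongr
    -- the constant
    have hD : 48 * (r : ℝ) ^ 3 ≤ Real.exp (7 * x) := by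
      have h1 : (r : ℝ) ≤ Real.exp r := le_exp _
      calc 48 * (r : ℝ) ^ 3 ≤ Real.exp 4 * (Real.exp r) ^ 3 := by
            have := exp_four
            gcongr
        _ = Real.exp (4 + 3 * r) := by
            rw [Real.exp_add, ← Real.exp_nat_mul]; norm_num
        _ ≤ Real.exp (7 * x) := by
            apply Real.exp_le_exp.mpr; linarith
    have hE : Real.exp (-(7 * x)) ≤ 1 / (6 * (r : ℝ) ^ 2) * (1 - s) := by
      calc Real.exp (-(7 * x)) = 1 / Real.exp (7 * x) := by rw [Real.exp_neg, one_div]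
        _ ≤ 1 / (48 * (r : ℝ) ^ 3) := by gcongr
        _ = 1 / (6 * (r : ℝ) ^ 2) * (1 / (8 * (r : ℝ))) := by field_simp; norm_num
        _ ≤ 1 / (6 * (r : ℝ) ^ 2) * (1 - s) := by gcongr
    -- the exponents
    have e1 : (k : ℝ) * (23 * x) ≤ 736 / 10 ^ 6 * (b / r) + 23 * x := by
      have h1 : h * (10 ^ 6 * x ^ 2) * ((k : ℝ) - 1) ≤ 32 * b := by
        by_cases hk1 : (1 : ℝ) ≤ k
        · have h2 : h * L * ((k : ℝ) - 1) ≤ 32 * b := by linarith
          have h3 : h * (10 ^ 6 * x ^ 2) * ((k : ℝ) - 1) ≤ h * L * ((k : ℝ) - 1) := by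
            have : (0 : ℝ) ≤ (k : ℝ) - 1 := by linarith
            gcongr
          linarith
        · push Not at hk1
          have : h * (10 ^ 6 * x ^ 2) * ((k : ℝ) - 1) ≤ 0 := by
            apply mul_nonpos_of_nonneg_of_nonpos
            · positivity
            · linarith
          linarith
      have h2 : h * (10 ^ 6 * x ^ 2) * ((k : ℝ) - 1) = 10 ^ 6 * (r * (((k : ℝ) - 1) * x)) := by
        rw [← hhx]; ring
      rw [h2] at h1
      have h3 : ((k : ℝ) - 1) * x ≤ 32 / 10 ^ 6 * (b / r) := by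
        rw [← mul_div_assoc, le_div_iff₀ hr0]
        nlinarith
      nlinarith
    have e2 : (((L * u : ℕ) : ℝ)) * 4 ≤ 64 / 10 ^ 4 * (b / r) := by
      push_cast
      have h1 : h * (10 ^ 10 * x ^ 3) * u ≤ 8 * b := by
        have : h * (10 ^ 10 * x ^ 3) * u ≤ h * g * u := by gcongr
        linarith
      have h2 : (L : ℝ) * u ≤ 2 * 10 ^ 6 * x ^ 2 * u := by gcongr
      have h3 : (x ^ 2 * u) * r * (10 : ℝ) ^ 10 ≤ 8 * b := by
        have h5 : (x ^ 2 * u) * r * (10 : ℝ) ^ 10 = h * (10 ^ 10 * x ^ 3) * u := by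
          rw [← hhx]; ring
        rw [h5]
        exact h1
      have h4 : x ^ 2 * u ≤ 8 / 10 ^ 10 * (b / r) := by
        rw [← mul_div_assoc, le_div_iff₀ hr0]
        linarith
      nlinarith
    have e3 : (z : ℝ) * (1 / (12 * (L : ℝ))) ≤ 1 / 10 ^ 6 * (b / r) := by
      have h1 : h * z ≤ 10 * b := by linarith
      have h2 : (z : ℝ) * (1 / (12 * (L : ℝ))) ≤ z * (1 / (12 * (10 ^ 6 * x ^ 2))) := by
        gcongr
      have h3 : (z : ℝ) * (1 / (12 * (10 ^ 6 * x ^ 2))) ≤ 1 / 10 ^ 6 * (b / r) := by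
        rw [mul_one_div, ← mul_div_assoc, div_le_div_iff₀ (by positivity) hr0]
        have h4 : (z : ℝ) * r ≤ 10 * b * x := by
          rw [← hhx]
          nlinarith
        have h5 : 10 * (b : ℝ) * x ≤ 12 * x ^ 2 * b := by nlinarith
        nlinarith
      linarith
    have e4 : (k : ℝ) * (23 * x) + (((L * u : ℕ) : ℝ)) * 4 + (z : ℝ) * (1 / (12 * (L : ℝ))) +
        b * (-(1 / (8 * (r : ℝ)))) ≤ -(7 * x) := by
      have h1 : (b : ℝ) * (-(1 / (8 * (r : ℝ)))) = -(1 / 8 * (b / r)) := by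
        field_simp
      rw [h1]
      have h2 : 30 * x ≤ 1 / 10 * (b / r) := by nlinarith
      linarith
    have key : (240 * (L : ℝ)) ^ k * 25 ^ (L * u) * (1 + 1 / (12 * (L : ℝ))) ^ z * s ^ b ≤
        1 / (6 * (r : ℝ) ^ 2) * (1 - s) := by
      calc (240 * (L : ℝ)) ^ k * 25 ^ (L * u) * (1 + 1 / (12 * (L : ℝ))) ^ z * s ^ b
          ≤ Real.exp (k * (23 * x)) * Real.exp ((L * u : ℕ) * 4) *
            Real.exp (z * (1 / (12 * (L : ℝ)))) * Real.exp (b * (-(1 / (8 * (r : ℝ))))) := by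
            gcongr
        _ = Real.exp ((k : ℝ) * (23 * x) + (((L * u : ℕ) : ℝ)) * 4 +
              (z : ℝ) * (1 / (12 * (L : ℝ))) + b * (-(1 / (8 * (r : ℝ))))) := by
            rw [Real.exp_add, Real.exp_add, Real.exp_add]
        _ ≤ Real.exp (-(7 * x)) := Real.exp_le_exp.mpr e4
        _ ≤ _ := hE
    have hθb : θ ^ b = s ^ b * s ^ b := by rw [← mul_pow, hss]
    calc (240 * (L : ℝ)) ^ k * 25 ^ (L * u) * (1 + 1 / (12 * (L : ℝ))) ^ z * θ ^ b
        = ((240 * (L : ℝ)) ^ k * 25 ^ (L * u) * (1 + 1 / (12 * (L : ℝ))) ^ z * s ^ b) *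
            s ^ b := by rw [hθb]; ring
      _ ≤ (1 / (6 * (r : ℝ) ^ 2) * (1 - s)) * s ^ b := by gcongr

end Pool.Agent.Helper17.FR
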